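import Pool.Agent.H.MP_44eb6b_gt.C

namespace Pool.Agent.H.MP_dfc365_gt.A

open Set Function Topology Filter TopologicalSpace Cardinal
open Pool.Agent.H.MP_3bc7a7_gt.A (J cI)
open Pool.Agent.H.MP_44eb6b_gt.C (bnd bas)

lemma pseudo {P : Set (Set ℕ)} (h1 : P.Countable) (h2 : ∀ A ∈ P, A.Infinite)
    (h3 : ∀ A ∈ P, ∀ B ∈ P, (A \ B).Finite ∨ (B \ A).Finite) (g : ℕ → ℕ) :
    ∃ y : ℕ → ℕ, StrictMono y ∧ (∀ n, g (y n + 1) ≤ y (n + 1)) ∧ ∀ A ∈ P, ∀ᶠ n in atTop, y n ∈ A := by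
  obtain ⟨f, hf⟩ := (h1.insert Set.univ).exists_eq_range (insert_nonempty _ _)
  have k : ∀ n, ∃ A ∈ insert Set.univ P, ∀ i < n, (A \ f i).Finite := fun n => by
    induction n with
    | zero => exact ⟨_, mem_insert _ _, by simp⟩
    | succ n ih =>
      obtain ⟨A, a1, a2⟩ := ih
      have : (A \ f n).Finite ∨ (f n \ A).Finite := by
        rcases a1 with rfl | a1
        · simp
        rcases hf.ge ⟨n, rfl⟩ with l | l
        · simp [l]
        · exact h3 _ a1 _ l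
      rcases this with l | l
      · exact ⟨A, a1, fun i hi => (Nat.lt_succ_iff.1 hi).eq_or_lt.elim (· ▸ l) (a2 i)⟩
      · refine ⟨f n, hf.ge ⟨n, rfl⟩, fun i hi => (Nat.lt_succ_iff.1 hi).eq_or_lt.elim
          (by rintro rfl; simp) fun m => (l.union (a2 i m)).subset fun x hx => ?_⟩
        by_cases q : x ∈ A
        exacts [.inr ⟨q, hx.2⟩, .inl ⟨hx.1, q⟩]
  have k2 : ∀ n m, ∃ x, m < x ∧ ∀ i < n, x ∈ f i := fun n m => by
    obtain ⟨A, a1, a2⟩ := k n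
    obtain ⟨x, x1, x2⟩ := ((a1.elim (· ▸ infinite_univ) (h2 A)).diff
      ((finite_Iio n).biUnion a2)).exists_gt m
    exact ⟨x, x2, fun i hi => by_contra fun l => x1.2 (mem_biUnion hi ⟨x1.1, l⟩)⟩
  choose s s1 s2 using k2
  let y : ℕ → ℕ := fun n => n.rec 0 fun n m => s n (max m (g (m + 1)))
  refine ⟨y, strictMono_nat_of_lt_succ fun n => (le_max_left _ _).trans_lt (s1 _ _),
    fun n => (le_max_right _ _).trans (s1 _ _).le, fun A hA => ?_⟩
  obtain ⟨i, rfl⟩ := hf.le (mem_insert_of_mem _ hA)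
  refine eventually_atTop.2 ⟨i + 2, fun n hn => ?_⟩
  obtain ⟨n, rfl⟩ := Nat.exists_eq_succ_of_ne_zero (n := n) (by omega)
  exact s2 _ _ i (by omega)

lemma tow (h : continuum.{0} = aleph 1) (Bad : J → Set (Set ℕ) → Set (Set ℕ))
    (hB : ∀ a P, P.Countable → (Bad a P).Countable) : ∃ x : J → Set ℕ, Injective x ∧
      (∀ a, (x a).Infinite) ∧ (∀ a b, a ≤ b → (x b \ x a).Finite) ∧ (∀ a, x a ∉ Bad a (x '' Iio a)) ∧
      ∀ g : ℕ → ℕ, ∃ a, ∀ N, ∃ n ≥ N, ∀ i ∈ x a, i < n ∨ g n ≤ i := by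
  obtain ⟨en⟩ : Nonempty (J ≃ (ℕ → ℕ)) := Cardinal.eq.1 (by simp [← h])
  have st : ∀ a (P : Set (Set ℕ)), ∃ z : Set ℕ, P.Countable → (∀ A ∈ P, A.Infinite) →
      (∀ A ∈ P, ∀ B ∈ P, (A \ B).Finite ∨ (B \ A).Finite) → z.Infinite ∧ (∀ A ∈ P, (z \ A).Finite) ∧
      z ∉ P ∪ Bad a P ∧ ∀ N, ∃ n ≥ N, ∀ i ∈ z, i < n ∨ en a n ≤ i := fun a P => by
    by_cases k : P.Countable ∧ (∀ A ∈ P, A.Infinite) ∧
      ∀ A ∈ P, ∀ B ∈ P, (A \ B).Finite ∨ (B \ A).Finite
    swap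
    · exact ⟨∅, fun a b c => (k ⟨a, b, c⟩).elim⟩
    obtain ⟨y, y1, y2, y3⟩ := pseudo k.1 k.2.1 k.2.2 (en a)
    let F : Set ℕ → Set ℕ := fun S => y '' {n | n % 2 = 0 ∨ n / 2 ∈ S}
    have Fi : Injective F := fun S T l => Set.ext fun n => by
      have := Set.ext_iff.1 (y1.injective.image_injective l) (2 * n + 1)
      simpa [show (2 * n + 1) / 2 = n by omega] using this
    obtain ⟨S, hS⟩ : ∃ S, F S ∉ P ∪ Bad a P := by
      by_contra! l
      have : (Set.univ : Set (Set ℕ)).Countable :=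
        ((k.1.union (hB a P k.1)).preimage Fi).mono fun S _ => l S
      rw [← le_aleph0_iff_set_countable] at this
      simpa using this.trans_lt aleph0_lt_continuum
    refine ⟨F S, fun _ _ _ => ⟨infinite_of_injective_forall_mem (f := fun n => y (2 * n))
      (fun a b l => by have := y1.injective l; omega) fun n => ⟨_, .inl (by omega), rfl⟩,
      fun A hA => ?_, hS, fun N => ⟨y N + 1, (y1.id_le N).trans (Nat.le_succ _), ?_⟩⟩⟩
    · obtain ⟨N, hN⟩ := eventually_atTop.1 (y3 A hA)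
      refine ((finite_Iio N).image y).subset ?_
      rintro _ ⟨⟨n, -, rfl⟩, l⟩
      exact ⟨n, not_le.1 fun m => l (hN n m), rfl⟩
    · rintro _ ⟨n, -, rfl⟩
      rcases le_or_gt n N with l | l
      · exact .inl (Nat.lt_succ_of_le (y1.monotone l))
      · exact .inr ((y2 N).trans (y1.monotone l))
  choose st hst using st
  let x : J → Set ℕ := wellFounded_lt.fix fun a ih => st a (range fun b : Iio a => ih b b.2)
  have hx : ∀ a, x a = st a (x '' Iio a) := fun a => by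
    rw [image_eq_range]; exact wellFounded_lt.fix_eq _ a
  have key : ∀ a, (x a).Infinite ∧ (∀ A ∈ x '' Iio a, (x a \ A).Finite) ∧
      x a ∉ x '' Iio a ∪ Bad a (x '' Iio a) ∧ ∀ N, ∃ n ≥ N, ∀ i ∈ x a, i < n ∨ en a n ≤ i := by
    intro a
    refine (wellFounded_lt (α := J)).induction (C := fun a => (x a).Infinite ∧
      (∀ A ∈ x '' Iio a, (x a \ A).Finite) ∧ x a ∉ x '' Iio a ∪ Bad a (x '' Iio a) ∧
        ∀ N, ∃ n ≥ N, ∀ i ∈ x a, i < n ∨ en a n ≤ i) a fun a ih => ?_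
    rw [hx a]
    refine hst a _ (((cI a).mono Iio_subset_Iic_self).image _) ?_ ?_
    · rintro _ ⟨b, hb, rfl⟩; exact (ih b hb).1
    · rintro _ ⟨b, hb, rfl⟩ _ ⟨c, hc, rfl⟩
      rcases lt_trichotomy b c with l | rfl | l
      · exact .inr ((ih c hc).2.1 _ ⟨b, l, rfl⟩)
      · simp
      · exact .inl ((ih b hb).2.1 _ ⟨c, l, rfl⟩)
  refine ⟨x, fun a b l => by_contra fun m => (lt_or_gt_of_ne m).elim
    (fun q => (key b).2.2.1 (.inl ⟨a, q, l⟩)) fun q => (key a).2.2.1 (.inl ⟨b, q, l.symm⟩),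
    fun a => (key a).1, fun a b l => l.eq_or_lt.elim (by rintro rfl; simp)
      fun m => (key b).2.1 _ ⟨a, m, rfl⟩, fun a l => (key a).2.2.1 (.inr l),
    fun g => ⟨en.symm g, by simpa using (key (en.symm g)).2.2.2⟩⟩

abbrev Y := Finset ℕ ⊕ J

lemma fu [TopologicalSpace Y] {x : J → Set ℕ} (x1 : ∀ a b, a ≤ b → (x b \ x a).Finite)
    (x2 : ∀ g : ℕ → ℕ, ∃ a, ∀ N, ∃ n ≥ N, ∀ i ∈ x a, i < n ∨ g n ≤ i)
    (h : ∀ s : Finset ℕ, ∀ U ∈ 𝓝 (.inl s : Y), ∃ m, ∀ z : Y,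
      (∀ i < m, i ∈ Sum.elim (↑) x z ↔ i ∈ s) → z ∈ U)
    {A : Set (Y → ℝ)} (hA : ∀ g ∈ A, Continuous g) {f : Y → ℝ} (f1 : Continuous f)
    (f2 : f ∈ closure A) : ∃ u : ℕ → Y → ℝ, (∀ n, u n ∈ A) ∧ Tendsto u atTop (𝓝 f) := by
  classical
  choose e he using fun δ : J => (cI δ).exists_eq_range ⟨δ, self_mem_Iic⟩
  have k1 : ∀ δ n, ∃ g ∈ A, (∀ i < n, dist (g (.inr (e δ i))) (f (.inr (e δ i))) < 1 / (n + 1)) ∧
      ∃ m, ∀ z : Y, (∀ i ∈ Sum.elim (↑) x z, i < n ∨ m ≤ i) → dist (g z) (f z) < 1 / (n + 1) := by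
    intro δ n
    obtain ⟨g, g1, g2⟩ := mem_closure_iff.1 f2 _ (isOpen_set_pi (s := fun z => Metric.ball (f z)
      (1 / (n + 1))) ((((finite_Iio n).image (e δ)).image Sum.inr).union
        ((Finset.range n).powerset.finite_toSet.image Sum.inl)) fun _ _ => Metric.isOpen_ball)
      fun _ _ => Metric.mem_ball_self Nat.one_div_pos_of_nat
    choose! m hm using fun s (hs : s ∈ (Finset.range n).powerset) => h s _
      ((isOpen_lt ((hA g g2).dist f1) continuous_const).mem_nhds (g1 _ (.inr ⟨s, hs, rfl⟩)))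
    refine ⟨g, g2, fun i hi => g1 _ (.inl ⟨_, ⟨i, hi, rfl⟩, rfl⟩),
      (Finset.range n).powerset.sup m, fun z hz => ?_⟩
    have q := Finset.mem_powerset.2 (Finset.filter_subset (· ∈ Sum.elim (↑) x z) (Finset.range n))
    refine hm _ q z fun i hi => ?_
    have := Finset.le_sup (f := m) q
    simp only [Finset.mem_filter, Finset.mem_range]
    exact ⟨fun l => ⟨(hz i l).resolve_right (by omega), l⟩, fun l => l.2⟩
  choose g g1 g2 m hm using k1
  choose nx hn using fun δ => x2 (m δ)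
  obtain ⟨δ0, -⟩ := bnd countable_empty
  let d : ℕ → J := fun k => k.rec δ0 fun _ δ => max δ (nx δ)
  have dm : Monotone d := monotone_nat_of_le_succ fun _ => le_max_left _ _
  obtain ⟨η, h1, h2⟩ := wellFounded_lt.has_min (upperBounds (range d))
    ((bnd (countable_range d)).imp fun _ k a ha => (k a ha).le)
  have k2 : ∀ k, ∃ n ≥ k, (∀ i ∈ x η, i < n ∨ m (d k) n ≤ i) ∧
      ∀ j ≤ k, ∀ i ≤ k, ∃ l < n, e (d k) l = e (d j) i := fun k => by
    have : ∀ p : ℕ × ℕ, ∃ l, p.1 ≤ k → e (d k) l = e (d p.1) p.2 := fun p => by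
      by_cases l : p.1 ≤ k
      · exact ((he (d k)).le (le_trans ((he _).ge ⟨p.2, rfl⟩) (dm l))).imp fun _ q _ => q
      · exact ⟨0, fun q => (l q).elim⟩
    choose l hl using this
    obtain ⟨M, hM⟩ := (x1 _ η ((le_max_right _ _).trans (h1 ⟨k + 1, rfl⟩))).bddAbove
    obtain ⟨n, n1, n2⟩ := hn (d k) (k + M + 1 + (Finset.Iic k ×ˢ Finset.Iic k).sup l)
    refine ⟨n, by omega, fun i hi => ?_, fun j hj i hi => ⟨l (j, i), ?_, hl _ hj⟩⟩
    · by_cases q : i ∈ x (nx (d k))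
      · exact n2 i q
      · have := hM ⟨hi, q⟩
        omega
    · have := Finset.le_sup (f := l) (show (j, i) ∈ Finset.Iic k ×ˢ Finset.Iic k by simp [hi, hj])
      omega
  choose n n1 n2 n3 using k2
  refine ⟨fun k => g (d k) (n k), fun k => g1 _ _, tendsto_pi_nhds.2 fun z => ?_⟩
  have : ∃ N, ∀ k ≥ N, dist (g (d k) (n k) z) (f z) < 1 / (n k + 1) := by
    have t : ∀ M, (∀ i ∈ Sum.elim (↑) x z, i ∈ x η ∨ i ≤ M) →
        ∀ k ≥ M + 1, dist (g (d k) (n k) z) (f z) < 1 / (n k + 1) := fun M hM k hk =>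
      hm _ _ z fun i hi => (hM i hi).elim (n2 k i) fun l => by have := n1 k; omega
    obtain s | b := z
    · exact ⟨_, t (s.sup id) fun i hi => .inr (Finset.le_sup (f := id) hi)⟩
    by_cases q : b ∈ upperBounds (range d)
    · obtain ⟨M, hM⟩ := (x1 η b (not_lt.1 (h2 b q))).bddAbove
      exact ⟨_, t M fun i hi => or_iff_not_imp_left.2 fun l => hM ⟨hi, l⟩⟩
    · obtain ⟨j, hj⟩ : ∃ j, b ≤ d j := by
        by_contra! l
        exact q (forall_mem_range.2 fun j => (l j).le)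
      obtain ⟨i, rfl⟩ := (he _).le hj
      refine ⟨i + j, fun k hk => ?_⟩
      obtain ⟨l, l1, l2⟩ := n3 k j (by omega) i (by omega)
      exact l2 ▸ g2 _ _ l l1
  obtain ⟨N, hN⟩ := this
  refine tendsto_iff_dist_tendsto_zero.2 (squeeze_zero' (.of_forall fun _ => dist_nonneg)
    (eventually_atTop.2 ⟨N, fun k hk => (hN k hk).le.trans ?_⟩)
    tendsto_one_div_add_atTop_nhds_zero_nat)
  exact Nat.one_div_le_one_div (n1 k)

open Classical in
noncomputable def pr (x : J → Set ℕ) (z : Y) (i : ℕ) : Bool := decide (i ∈ Sum.elim (↑) x z)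

lemma pri {x : J → Set ℕ} (h1 : Injective x) (h2 : ∀ a, (x a).Infinite) : Injective (pr x) := by
  intro z w l
  have : Sum.elim (↑) x z = Sum.elim (↑) x w :=
    Set.ext fun i => by simpa [pr] using congrFun l i
  obtain s | a := z <;> obtain t | b := w <;> simp only [Sum.elim_inl, Sum.elim_inr] at this
  · simpa using this
  · exact (h2 b (this ▸ s.finite_toSet)).elim
  · exact (h2 a (this ▸ t.finite_toSet)).elim
  · rw [h1 this]

lemma nb {x : J → Set ℕ} (c : J → Y → Bool) (z : Y) {U : Set Y}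
    (hU : U ∈ @nhds _ (.induced (fun z => Sum.elim (pr x z) (c · z)) inferInstance) z) :
    ∃ m, ∃ t : Finset J, ∀ w, (∀ i < m, pr x w i = pr x z i) → (∀ a ∈ t, c a w = c a z) → w ∈ U := by
  rw [mem_nhds_induced] at hU
  obtain ⟨V, v1, v2⟩ := hU
  obtain ⟨u, hu⟩ := bas isOpen_interior (mem_interior_iff_mem_nhds.2 v1)
  refine ⟨u.toLeft.sup id + 1, u.toRight, fun w w1 w2 => v2 (mem_preimage.2 (interior_subset (hu _ ?_)))⟩
  rintro (i | a) hi
  · exact w1 i (Nat.lt_succ_of_le (Finset.le_sup (f := id) (Finset.mem_toLeft.2 hi)))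
  · exact w2 a (Finset.mem_toRight.2 hi)

lemma nb2 {x : J → Set ℕ} (c : J → Y → Bool) (hc : ∀ a (s : Finset ℕ), ∃ m, ∀ w,
    (∀ i < m, pr x w i = pr x (.inl s) i) → c a w = c a (.inl s)) (s : Finset ℕ) (U : Set Y)
    (hU : U ∈ @nhds _ (.induced (fun z => Sum.elim (pr x z) (c · z)) inferInstance) (.inl s)) :
    ∃ m, ∀ z : Y, (∀ i < m, i ∈ Sum.elim (↑) x z ↔ i ∈ s) → z ∈ U := by
  obtain ⟨m, t, h⟩ := nb c _ hU
  choose f hf using fun a => hc a s
  refine ⟨m + t.sup f, fun z hz => h z (fun i hi => by simp [pr, hz i (by omega)])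
    fun a ha => hf a z fun i hi => ?_⟩
  have := Finset.le_sup (f := f) ha
  simp [pr, hz i (by omega)]

end Pool.Agent.H.MP_dfc365_gt.A
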